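import Pool.Agent.P8H73.RP.Stm
import Pool.Agent.Helper112.LS

/-!
# Project RP, package LS: from the full period to windows

`f = ∑ g i`, `g i` of period `r i ≤ N`, `r i ∣ R`: finite Fourier expansion of `f` with frequencies `a / R` of reduced
denominator at most `N`, the identity of Parseval over the full period, and the dual form of the large sieve over the window.
-/

set_option autoImplicit false

namespace Pool.Agent.P8H76.RP

open Finset Pool.Agent.Helper112 Pool.Agent.P8H73.RP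

/-- orthogonality of the additive characters -/
lemma orth (r : ℕ) (hr : 1 ≤ r) (w : ℤ) :
    ∑ b ∈ range r, ee ((b : ℝ) * ((w : ℝ) / r)) = if (r : ℤ) ∣ w then (r : ℂ) else 0 := by
  have h1 : ∀ b ∈ range r, ee ((b : ℝ) * ((w : ℝ) / r)) = ee ((w : ℝ) / r) ^ b :=
    fun b _ => ls_ee_nat_mul b _
  rw [Finset.sum_congr rfl h1]
  have hr0 : (r : ℝ) ≠ 0 := by
    have : (0 : ℝ) < r := by exact_mod_cast hr
    exact this.ne'
  split_ifs with h
  · obtain ⟨k, hk⟩ := h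
    have : ((w : ℝ) / r) = ((k : ℤ) : ℝ) := by
      rw [hk]; push_cast; field_simp
    rw [this, ls_ee_int]
    simp
  · have hne : ee ((w : ℝ) / r) ≠ 1 := by
      intro h2
      obtain ⟨n, hn⟩ := ls_ee_eq_one h2
      apply h
      refine ⟨n, ?_⟩
      have : (w : ℝ) = r * n := by
        field_simp at hn
        linarith
      exact_mod_cast this
    have h3 : (∑ b ∈ range r, ee ((w : ℝ) / r) ^ b) * (ee ((w : ℝ) / r) - 1) = 0 := by
      rw [geom_sum_mul, ← ls_ee_nat_mul]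
      have : (r : ℝ) * ((w : ℝ) / r) = ((w : ℤ) : ℝ) := by field_simp
      rw [this, ls_ee_int]
      ring
    exact (mul_eq_zero.mp h3).resolve_right (sub_ne_zero.mpr hne)

/-- Fourier expansion of a function of the period `r` -/
lemma expand (r : ℕ) (hr : 1 ≤ r) (g : ℤ → ℝ) (hg : Per r g) :
    ∃ G : ℕ → ℂ, ∀ u : ℤ, (g u : ℂ) = ∑ b ∈ range r, G b * ee ((b : ℝ) * ((u : ℝ) / r)) := by
  have hr0 : (r : ℝ) ≠ 0 := by
    have : (0 : ℝ) < r := by exact_mod_cast hr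
    exact this.ne'
  have hrC : (r : ℂ) ≠ 0 := by exact_mod_cast hr0
  refine ⟨fun b => (1 / (r : ℂ)) * ∑ v ∈ range r, (g v : ℂ) * ee ((b : ℝ) * ((-(v : ℝ)) / r)), fun u => ?_⟩
  have h1 : ∑ b ∈ range r, ((1 / (r : ℂ)) * ∑ v ∈ range r, (g v : ℂ) * ee ((b : ℝ) * ((-(v : ℝ)) / r))) *
        ee ((b : ℝ) * ((u : ℝ) / r)) =
      (1 / (r : ℂ)) * ∑ v ∈ range r, (g v : ℂ) * ∑ b ∈ range r, ee ((b : ℝ) * (((u - v : ℤ) : ℝ) / r)) := by
    simp only [Finset.mul_sum, Finset.sum_mul]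
    rw [Finset.sum_comm]
    refine Finset.sum_congr rfl fun v _ => Finset.sum_congr rfl fun b _ => ?_
    have : ((b : ℝ) * (((u - v : ℤ) : ℝ) / r)) = (b : ℝ) * ((-(v : ℝ)) / r) + (b : ℝ) * ((u : ℝ) / r) := by
      push_cast
      ring
    rw [this, ls_ee_add]
    ring
  rw [h1]
  have hrz : (r : ℤ) ≠ 0 := by
    have : r ≠ 0 := by omega
    exact_mod_cast this
  have hnn : 0 ≤ u % (r : ℤ) := Int.emod_nonneg u hrz
  have hlt : u % (r : ℤ) < r := Int.emod_lt_of_pos u (by omega)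
  obtain ⟨v0, hv0⟩ := Int.eq_ofNat_of_zero_le hnn
  have hv0r : v0 < r := by omega
  have hmem : v0 ∈ range r := Finset.mem_range.mpr hv0r
  rw [Finset.sum_eq_single_of_mem v0 hmem]
  · rw [orth r hr, if_pos]
    · have hper : g u = g v0 := by
        have hp : Function.Periodic g (r : ℤ) := hg
        have h2 : u = (v0 : ℤ) + (u / r) * (r : ℤ) := by
          rw [← hv0]
          have := Int.emod_add_mul_ediv u r
          linarith
        have h3 := hp.int_mul (u / r) (v0 : ℤ)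
        simp only [Int.cast_id] at h3
        rw [← h2] at h3
        exact h3
      rw [hper]
      field_simp
    · rw [← hv0]
      exact Int.dvd_self_sub_emod
  · intro v hv hne
    rw [orth r hr, if_neg, mul_zero]
    intro hd
    apply hne
    have hv' : v < r := Finset.mem_range.mp hv
    have h4 : ((r : ℤ)) ∣ (v0 : ℤ) - v := by
      have h5 : (r : ℤ) ∣ u - v0 := by
        rw [← hv0]
        exact Int.dvd_self_sub_emod
      have := dvd_sub hd h5
      have e : u - (v : ℤ) - (u - v0) = v0 - v := by ring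
      rwa [e] at this
    obtain ⟨k, hk⟩ := h4
    have hk0 : k = 0 := by
      by_contra hk0
      rcases lt_or_gt_of_ne hk0 with h | h
      · have : (r : ℤ) * k ≤ r * (-1) := by
          apply mul_le_mul_of_nonneg_left <;> omega
        omega
      · have : (r : ℤ) * 1 ≤ r * k := by
          apply mul_le_mul_of_nonneg_left <;> omega
        omega
    rw [hk0, mul_zero] at hk
    omega

/-- the frequencies with a small reduced denominator -/
def freq (R N : ℕ) : Finset ℕ := (range R).filter (fun a => R / Nat.gcd a R ≤ N)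

/-- the expansion modulo a multiple of the period -/
lemma expandR (R N r : ℕ) (hR : 1 ≤ R) (hr : 1 ≤ r) (hrN : r ≤ N) (hrR : r ∣ R) (g : ℤ → ℝ) (hg : Per r g) :
    ∃ G : ℕ → ℂ, ∀ u : ℤ, (g u : ℂ) = ∑ a ∈ freq R N, G a * ee ((a : ℝ) * ((u : ℝ) / R)) := by
  obtain ⟨m, hm⟩ := hrR
  obtain ⟨G, hG⟩ := expand r hr g hg
  have hm0 : 0 < m := by
    rcases Nat.eq_zero_or_pos m with h | h
    · rw [h] at hm; omega
    · exact h
  have hmem : ∀ b ∈ range r, b * m ∈ freq R N := by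
    intro b hb
    have hb' := Finset.mem_range.mp hb
    unfold freq
    rw [Finset.mem_filter, Finset.mem_range]
    refine ⟨by rw [hm]; exact Nat.mul_lt_mul_of_pos_right hb' hm0, ?_⟩
    rw [hm, Nat.gcd_mul_right, Nat.mul_div_mul_right _ _ hm0]
    exact le_trans (Nat.div_le_self _ _) hrN
  refine ⟨fun a => ∑ b ∈ range r, if a = b * m then G b else 0, fun u => ?_⟩
  rw [hG u]
  simp only [Finset.sum_mul]
  rw [Finset.sum_comm]
  refine Finset.sum_congr rfl fun b hb => ?_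
  rw [Finset.sum_eq_single_of_mem (b * m) (hmem b hb)]
  · rw [if_pos rfl]
    congr 2
    rw [hm]
    have hr0 : (r : ℝ) ≠ 0 := by
      have : (0 : ℝ) < r := by exact_mod_cast hr
      exact this.ne'
    have hm0' : (m : ℝ) ≠ 0 := by exact_mod_cast hm0.ne'
    push_cast
    field_simp
  · intro a _ hne
    rw [if_neg hne, zero_mul]

/-- Parseval over the full period -/
lemma parseval (R N : ℕ) (hR : 1 ≤ R) (f : ℤ → ℝ) (F : ℕ → ℂ)
    (hF : ∀ u : ℤ, (f u : ℂ) = ∑ a ∈ freq R N, F a * ee ((a : ℝ) * ((u : ℝ) / R))) :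
    mean R (fun u => f u ^ 2) = ∑ a ∈ freq R N, ‖F a‖ ^ 2 := by
  have hR0 : (R : ℝ) ≠ 0 := by
    have : (0 : ℝ) < R := by exact_mod_cast hR
    exact this.ne'
  have hRC : (R : ℂ) ≠ 0 := by exact_mod_cast hR0
  have key : ∑ u ∈ range R, ((f (u : ℤ) : ℂ)) ^ 2 = (R : ℂ) * ∑ a ∈ freq R N, ((‖F a‖ ^ 2 : ℝ) : ℂ) := by
    have h1 : ∀ u ∈ range R, ((f (u : ℤ) : ℂ)) ^ 2 = ∑ a ∈ freq R N, ∑ a' ∈ freq R N,
        F a * (starRingEnd ℂ) (F a') * ee ((u : ℝ) * ((((a : ℤ) - (a' : ℤ) : ℤ) : ℝ) / R)) := by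
      intro u _
      have h2 : ((f (u : ℤ) : ℂ)) ^ 2 = (f (u : ℤ) : ℂ) * (starRingEnd ℂ) (f (u : ℤ) : ℂ) := by
        rw [Complex.conj_ofReal]; ring
      rw [h2, hF (u : ℤ), map_sum, Finset.sum_mul_sum]
      refine Finset.sum_congr rfl fun a _ => Finset.sum_congr rfl fun a' _ => ?_
      rw [map_mul, ls_conj_ee]
      have h3 : ((u : ℝ) * ((((a : ℤ) - (a' : ℤ) : ℤ) : ℝ) / R)) =
          (a : ℝ) * (((u : ℤ) : ℝ) / R) + -((a' : ℝ) * (((u : ℤ) : ℝ) / R)) := by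
        push_cast
        ring
      rw [h3, ls_ee_add]
      ring
    rw [Finset.sum_congr rfl h1, Finset.sum_comm, Finset.mul_sum]
    refine Finset.sum_congr rfl fun a ha => ?_
    rw [Finset.sum_comm]
    have h4 : ∀ a' ∈ freq R N, ∑ u ∈ range R, F a * (starRingEnd ℂ) (F a') *
        ee ((u : ℝ) * ((((a : ℤ) - (a' : ℤ) : ℤ) : ℝ) / R)) =
        F a * (starRingEnd ℂ) (F a') * (if (R : ℤ) ∣ (a : ℤ) - a' then (R : ℂ) else 0) := by
      intro a' _
      rw [← Finset.mul_sum, orth R hR]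
    rw [Finset.sum_congr rfl h4, Finset.sum_eq_single_of_mem a ha]
    · rw [if_pos (by simp), Complex.mul_conj, Complex.normSq_eq_norm_sq]
      ring
    · intro a' ha' hne
      rw [if_neg, mul_zero]
      intro hd
      apply hne
      have e1 : a < R := Finset.mem_range.mp (Finset.mem_filter.mp ha).1
      have e2 : a' < R := Finset.mem_range.mp (Finset.mem_filter.mp ha').1
      obtain ⟨k, hk⟩ := hd
      have hk0 : k = 0 := by
        by_contra hk0
        rcases lt_or_gt_of_ne hk0 with h | h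
        · have : (R : ℤ) * k ≤ R * (-1) := by
            apply mul_le_mul_of_nonneg_left <;> omega
          omega
        · have : (R : ℤ) * 1 ≤ R * k := by
            apply mul_le_mul_of_nonneg_left <;> omega
          omega
      rw [hk0, mul_zero] at hk
      omega
  have key2 : ∑ u ∈ range R, (f (u : ℤ)) ^ 2 = (R : ℝ) * ∑ a ∈ freq R N, ‖F a‖ ^ 2 := by
    have : ((∑ u ∈ range R, (f (u : ℤ)) ^ 2 : ℝ) : ℂ) = (((R : ℝ) * ∑ a ∈ freq R N, ‖F a‖ ^ 2 : ℝ) : ℂ) := by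
      push_cast
      have := key
      push_cast at this
      exact this
    exact_mod_cast this
  unfold mean
  rw [key2]
  field_simp

/-- separation of the frequencies -/
lemma sep (R N : ℕ) (a a' : ℕ) (ha : a ∈ freq R N) (ha' : a' ∈ freq R N) (hne : a ≠ a') :
    lsSep (N ^ 2) ((a' : ℝ) / R - (a : ℝ) / R) := by
  unfold freq at ha ha'
  rw [Finset.mem_filter, Finset.mem_range] at ha ha'
  obtain ⟨h1, h2⟩ := ha
  obtain ⟨h1', h2'⟩ := ha'
  have hR : 0 < R := by omega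
  have hg : 0 < Nat.gcd a R := Nat.gcd_pos_of_pos_right _ hR
  have hg' : 0 < Nat.gcd a' R := Nat.gcd_pos_of_pos_right _ hR
  have hdR : Nat.gcd a R ∣ R := Nat.gcd_dvd_right _ _
  have hdR' : Nat.gcd a' R ∣ R := Nat.gcd_dvd_right _ _
  have hda : Nat.gcd a R ∣ a := Nat.gcd_dvd_left _ _
  have hda' : Nat.gcd a' R ∣ a' := Nat.gcd_dvd_left _ _
  have e1 : (a : ℝ) / R = ((a / Nat.gcd a R : ℕ) : ℝ) / ((R / Nat.gcd a R : ℕ) : ℝ) := by
    have hg0 : ((Nat.gcd a R : ℕ) : ℝ) ≠ 0 := by exact_mod_cast hg.ne'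
    rw [Nat.cast_div hda hg0, Nat.cast_div hdR hg0]
    rw [div_div_div_cancel_right₀ hg0]
  have e1' : (a' : ℝ) / R = ((a' / Nat.gcd a' R : ℕ) : ℝ) / ((R / Nat.gcd a' R : ℕ) : ℝ) := by
    have hg0 : ((Nat.gcd a' R : ℕ) : ℝ) ≠ 0 := by exact_mod_cast hg'.ne'
    rw [Nat.cast_div hda' hg0, Nat.cast_div hdR' hg0]
    rw [div_div_div_cancel_right₀ hg0]
  have hR0 : (R : ℝ) ≠ 0 := by exact_mod_cast hR.ne'
  have hfin : ¬ (R / Nat.gcd a R = R / Nat.gcd a' R ∧ a / Nat.gcd a R = a' / Nat.gcd a' R) := by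
    rintro ⟨h3, h4⟩
    apply hne
    have : (a : ℝ) / R = (a' : ℝ) / R := by rw [e1, e1', h3, h4]
    have h5 : (a : ℝ) = a' := by
      field_simp at this
      exact this
    exact_mod_cast h5
  rw [e1, e1']
  exact ls_sep_of_int N (R / Nat.gcd a R) (R / Nat.gcd a' R)
    (Nat.div_pos (Nat.le_of_dvd hR hdR) hg) (Nat.div_pos (Nat.le_of_dvd hR hdR') hg') h2 h2'
    (a / Nat.gcd a R) (a' / Nat.gcd a' R)
    (Nat.div_lt_div_of_lt_of_dvd hdR h1) (Nat.div_lt_div_of_lt_of_dvd hdR' h1')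
    (Nat.coprime_div_gcd_div_gcd hg) (Nat.coprime_div_gcd_div_gcd hg') hfin

theorem ls : S_LS := by
  refine ⟨6, by norm_num, ?_⟩
  intro ι s R N r g hR hN h X W
  have hex : ∀ i, ∃ G : ℕ → ℂ, i ∈ s → ∀ u : ℤ, (g i u : ℂ) =
      ∑ a ∈ freq R N, G a * ee ((a : ℝ) * ((u : ℝ) / R)) := by
    intro i
    by_cases hi : i ∈ s
    · obtain ⟨h1, h2, h3, h4⟩ := h i hi
      obtain ⟨G, hG⟩ := expandR R N (r i) hR h1 h2 h3 (g i) h4
      exact ⟨G, fun _ => hG⟩
    · exact ⟨fun _ => 0, fun h => absurd h hi⟩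
  choose G hG using hex
  have hF : ∀ u : ℤ, ((∑ i ∈ s, g i u : ℝ) : ℂ) =
      ∑ a ∈ freq R N, (∑ i ∈ s, G i a) * ee ((a : ℝ) * ((u : ℝ) / R)) := by
    intro u
    push_cast
    rw [Finset.sum_congr rfl (fun i hi => hG i hi u), Finset.sum_comm]
    refine Finset.sum_congr rfl fun a _ => ?_
    rw [Finset.sum_mul]
  rw [parseval R N hR (fun u => ∑ i ∈ s, g i u) (fun a => ∑ i ∈ s, G i a) hF]
  have hK : 1 ≤ N ^ 2 := Nat.one_le_pow _ _ hN
  have hd := ls_dual (freq R N) (fun a : ℕ => (a : ℝ) / R) (N ^ 2) W hK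
    (fun a ha a' ha' hne => sep R N a a' ha ha' hne)
    (fun a => (∑ i ∈ s, G i a) * ee ((a : ℝ) * (((X - 1 : ℤ) : ℝ) / R)))
  have hr : ∑ a ∈ freq R N, ‖(∑ i ∈ s, G i a) * ee ((a : ℝ) * (((X - 1 : ℤ) : ℝ) / R))‖ ^ 2 =
      ∑ a ∈ freq R N, ‖∑ i ∈ s, G i a‖ ^ 2 := by
    refine Finset.sum_congr rfl fun a _ => ?_
    rw [norm_mul, ls_norm_ee, mul_one]
  rw [hr] at hd
  have hl : ∑ M ∈ range W, (∑ i ∈ s, g i (X + M)) ^ 2 = ∑ n ∈ Icc 1 W,
      ‖∑ a ∈ freq R N, ((∑ i ∈ s, G i a) * ee ((a : ℝ) * (((X - 1 : ℤ) : ℝ) / R))) * ee ((n : ℝ) * ((a : ℝ) / R))‖ ^ 2 := by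
    refine Finset.sum_nbij' (fun M => M + 1) (fun n => n - 1) ?_ ?_ ?_ ?_ ?_
    · intro M hM
      rw [Finset.mem_range] at hM
      rw [Finset.mem_Icc]
      omega
    · intro n hn
      rw [Finset.mem_Icc] at hn
      rw [Finset.mem_range]
      omega
    · intro M _
      simp
    · intro n hn
      rw [Finset.mem_Icc] at hn
      show n - 1 + 1 = n
      omega
    · intro M _
      have h5 : (∑ i ∈ s, g i (X + M)) ^ 2 = ‖((∑ i ∈ s, g i (X + M) : ℝ) : ℂ)‖ ^ 2 := by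
        rw [Complex.norm_real, Real.norm_eq_abs, sq_abs]
      rw [h5, hF (X + M)]
      congr 2
      refine Finset.sum_congr rfl fun a _ => ?_
      rw [mul_assoc, ← ls_ee_add]
      congr 2
      push_cast
      ring
  rw [hl]
  have e6 : (((N ^ 2 : ℕ)) : ℝ) = (N : ℝ) ^ 2 := by push_cast; ring
  rw [e6] at hd
  exact hd

end Pool.Agent.P8H76.RP
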